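import Mathlib

set_option autoImplicit false

open Filter Topology

namespace Pool.Agent.Lib.MP_121ecb_an

/-- A Hardy field: a subfield of the ring of germs at `+∞` of real functions (a subring in which
every nonzero element is invertible) that is closed under differentiation: every germ of it has a
representative which is differentiable near `+∞` and whose derivative has its germ in it. -/
structure IsHardyField (K : Subring (Germ (atTop : Filter ℝ) ℝ)) : Prop where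
  inv_mem : ∀ f ∈ K, f ≠ 0 → ∃ g ∈ K, f * g = 1
  deriv_mem : ∀ f ∈ K, ∃ φ : ℝ → ℝ, (φ : Germ (atTop : Filter ℝ) ℝ) = f ∧
    (∀ᶠ t in atTop, DifferentiableAt ℝ φ t) ∧ ((deriv φ : ℝ → ℝ) : Germ (atTop : Filter ℝ) ℝ) ∈ K

/-- The hypothesis of the question: every `c₁ f₁^(m₁) + ⋯ + c_k f_k^(m_k)` with integers `c_i` and
`m_i ≥ 0` has absolute value tending to `0` or to `∞`. -/
def SpanCondition {k : ℕ} (f : Fin k → ℝ → ℝ) : Prop :=
  ∀ (c : Fin k → ℤ) (m : Fin k → ℕ),
    Tendsto (fun t : ℝ => |∑ i, (c i : ℝ) * iteratedDeriv (m i) (f i) t|) atTop (𝓝 0) ∨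
    Tendsto (fun t : ℝ => |∑ i, (c i : ℝ) * iteratedDeriv (m i) (f i) t|) atTop atTop

/-- The set `R_f(E)` of all `n ≥ 1` such that `E ∩ (E - ⌊f(n)⌋)` is nonempty. -/
def returnSet (f : ℝ → ℝ) (E : Set ℕ) : Set ℕ :=
  {n | 1 ≤ n ∧ ∃ a ∈ E, ∃ b ∈ E, (a : ℤ) = (b : ℤ) - ⌊f (n : ℝ)⌋}

/-- The upper density of a set of positive integers. -/
noncomputable def upperDensity (E : Set ℕ) : ℝ :=
  limsup (fun N : ℕ => ((E ∩ Set.Icc 1 N).ncard : ℝ) / (N : ℝ)) atTop

/-- A set of positive integers is thick if it contains arbitrarily long intervals. -/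
def Thick (R : Set ℕ) : Prop :=
  ∀ L : ℕ, ∃ n : ℕ, 1 ≤ n ∧ ∀ j < L, n + j ∈ R

/-- The statement Q1 asks to prove or disprove. -/
def ThickIntersections : Prop :=
  ∀ K : Subring (Germ (atTop : Filter ℝ) ℝ), IsHardyField K →
    ∀ (k : ℕ) (f : Fin k → ℝ → ℝ), (∀ i, ((f i : ℝ → ℝ) : Germ (atTop : Filter ℝ) ℝ) ∈ K) →
      SpanCondition f →
        ∀ E : Set ℕ, E ⊆ {n | 1 ≤ n} → 0 < upperDensity E →
          Thick (⋂ i, returnSet (f i) E)

end Pool.Agent.Lib.MP_121ecb_an
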