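import Mathlib
import Pool.Agent.Lib.MP_121ecb_an.Defs

set_option autoImplicit false

open Filter Topology

namespace Pool.Agent.Lib.MP_121ecb_an

/-! ### The Hardy field of rational functions in the square root of `t` -/

open Polynomial in
/-- the function `p(√t)/q(√t)` -/
noncomputable def ratSqrt (p q : ℝ[X]) (t : ℝ) : ℝ := p.eval (√t) / q.eval (√t)

open Polynomial in
theorem eventually_eval_ne {q : ℝ[X]} (hq : q ≠ 0) : ∀ᶠ t : ℝ in atTop, q.eval (√t) ≠ 0 := by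
  have h := Polynomial.eventually_atTop_not_isRoot q hq
  have h2 := (Real.tendsto_sqrt_atTop).eventually h
  filter_upwards [h2] with t ht
  exact ht

open Polynomial in
/-- the Hardy field of germs of rational functions in `√t` -/
noncomputable def sqrtField : Subring (Germ (atTop : Filter ℝ) ℝ) where
  carrier := {f | ∃ p q : ℝ[X], q ≠ 0 ∧ f = ((ratSqrt p q : ℝ → ℝ) : Germ (atTop : Filter ℝ) ℝ)}
  mul_mem' := by
    rintro _ _ ⟨p, q, hq, rfl⟩ ⟨p', q', hq', rfl⟩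
    refine ⟨p * p', q * q', mul_ne_zero hq hq', ?_⟩
    rw [← Germ.coe_mul]
    refine Germ.coe_eq.mpr (Eventually.of_forall fun t => ?_)
    simp [ratSqrt, div_mul_div_comm]
  one_mem' := by
    refine ⟨1, 1, one_ne_zero, ?_⟩
    rw [← Germ.coe_one]
    refine Germ.coe_eq.mpr (Eventually.of_forall fun t => ?_)
    simp [ratSqrt]
  add_mem' := by
    rintro _ _ ⟨p, q, hq, rfl⟩ ⟨p', q', hq', rfl⟩
    refine ⟨p * q' + q * p', q * q', mul_ne_zero hq hq', ?_⟩
    rw [← Germ.coe_add]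
    refine Germ.coe_eq.mpr ?_
    filter_upwards [eventually_eval_ne hq, eventually_eval_ne hq'] with t h1 h2
    simp only [ratSqrt, Pi.add_apply, eval_add, eval_mul]
    rw [div_add_div _ _ h1 h2]
  zero_mem' := by
    refine ⟨0, 1, one_ne_zero, ?_⟩
    rw [← Germ.coe_zero]
    refine Germ.coe_eq.mpr (Eventually.of_forall fun t => ?_)
    simp [ratSqrt]
  neg_mem' := by
    rintro _ ⟨p, q, hq, rfl⟩
    refine ⟨-p, q, hq, ?_⟩
    rw [← Germ.coe_neg]
    refine Germ.coe_eq.mpr (Eventually.of_forall fun t => ?_)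
    simp [ratSqrt, neg_div]

open Polynomial in
theorem mem_sqrtField (p q : ℝ[X]) (hq : q ≠ 0) :
    ((ratSqrt p q : ℝ → ℝ) : Germ (atTop : Filter ℝ) ℝ) ∈ sqrtField :=
  ⟨p, q, hq, rfl⟩

open Polynomial in
theorem hasDerivAt_ratSqrt (p q : ℝ[X]) {t : ℝ} (ht : 0 < t) (hq : q.eval (√t) ≠ 0) :
    HasDerivAt (ratSqrt p q)
      (ratSqrt (derivative p * q - p * derivative q) (C 2 * X * q ^ 2) t) t := by
  have hs : HasDerivAt (fun t : ℝ => √t) (1 / (2 * √t)) t := Real.hasDerivAt_sqrt ht.ne'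
  have h1 : HasDerivAt (fun t : ℝ => p.eval (√t)) ((derivative p).eval (√t) * (1 / (2 * √t))) t :=
    (p.hasDerivAt (√t)).comp t hs
  have h2 : HasDerivAt (fun t : ℝ => q.eval (√t)) ((derivative q).eval (√t) * (1 / (2 * √t))) t :=
    (q.hasDerivAt (√t)).comp t hs
  have h3 := h1.div h2 hq
  have hst : √t ≠ 0 := (Real.sqrt_pos.mpr ht).ne'
  refine HasDerivAt.congr_deriv h3 ?_
  simp only [ratSqrt, eval_sub, eval_mul, eval_pow, eval_C, eval_X]
  field_simp

theorem isHardyField_sqrtField : IsHardyField sqrtField where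
  inv_mem := by
    rintro _ ⟨p, q, hq, rfl⟩ hne
    have hp : p ≠ 0 := by
      rintro rfl
      apply hne
      rw [← Germ.coe_zero]
      refine Germ.coe_eq.mpr (Eventually.of_forall fun t => ?_)
      simp [ratSqrt]
    refine ⟨_, mem_sqrtField q p hp, ?_⟩
    rw [← Germ.coe_mul, ← Germ.coe_one]
    refine Germ.coe_eq.mpr ?_
    filter_upwards [eventually_eval_ne hq, eventually_eval_ne hp] with t h1 h2
    simp only [ratSqrt, Pi.mul_apply, Pi.one_apply]
    field_simp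
  deriv_mem := by
    rintro _ ⟨p, q, hq, rfl⟩
    refine ⟨ratSqrt p q, rfl, ?_, ?_⟩
    · filter_upwards [eventually_eval_ne hq, eventually_gt_atTop 0] with t h1 h2
      exact (hasDerivAt_ratSqrt p q h2 h1).differentiableAt
    · have hq2 : (Polynomial.C 2 * Polynomial.X * q ^ 2 : Polynomial ℝ) ≠ 0 := by
        refine mul_ne_zero (mul_ne_zero ?_ Polynomial.X_ne_zero) (pow_ne_zero 2 hq)
        simp
      have h := mem_sqrtField (Polynomial.derivative p * q - p * Polynomial.derivative q)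
        (Polynomial.C 2 * Polynomial.X * q ^ 2) hq2
      convert h using 1
      refine Germ.coe_eq.mpr ?_
      filter_upwards [eventually_eval_ne hq, eventually_gt_atTop 0] with t h1 h2
      exact (hasDerivAt_ratSqrt p q h2 h1).deriv

/-! ### The two functions -/

/-- `f₁(t) = t^{3/2}` -/
noncomputable def f₁ (t : ℝ) : ℝ := t ^ (3 / 2 : ℝ)

/-- `f₂(t) = α t^{3/2} + t` -/
noncomputable def f₂ (α : ℝ) (t : ℝ) : ℝ := α * t ^ (3 / 2 : ℝ) + t

theorem rpow_three_half {t : ℝ} (ht : 0 ≤ t) : t ^ (3 / 2 : ℝ) = t * √t := by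
  rw [show (3 / 2 : ℝ) = 1 + 1 / 2 by norm_num, Real.rpow_add' ht (by norm_num), Real.rpow_one,
    ← Real.sqrt_eq_rpow]

open Polynomial in
theorem f₁_mem : ((f₁ : ℝ → ℝ) : Germ (atTop : Filter ℝ) ℝ) ∈ sqrtField := by
  refine ⟨X ^ 3, 1, one_ne_zero, Germ.coe_eq.mpr ?_⟩
  filter_upwards [eventually_ge_atTop 0] with t ht
  simp only [f₁, ratSqrt, eval_pow, eval_X, eval_one, div_one]
  rw [rpow_three_half ht]
  nth_rewrite 1 [← Real.sq_sqrt ht]
  ring

open Polynomial in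
theorem f₂_mem (α : ℝ) : ((f₂ α : ℝ → ℝ) : Germ (atTop : Filter ℝ) ℝ) ∈ sqrtField := by
  refine ⟨C α * X ^ 3 + X ^ 2, 1, one_ne_zero, Germ.coe_eq.mpr ?_⟩
  filter_upwards [eventually_ge_atTop 0] with t ht
  simp only [f₂, ratSqrt, eval_pow, eval_X, eval_one, div_one, eval_add, eval_mul, eval_C]
  rw [rpow_three_half ht]
  have := Real.sq_sqrt ht
  calc α * (t * √t) + t = α * (√t ^ 2 * √t) + √t ^ 2 := by rw [this]
    _ = _ := by ring

/-- coefficients: the `m`-th derivative of `t^{3/2}` is `coef m * t^(3/2-m)` -/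
noncomputable def coef : ℕ → ℝ
  | 0 => 1
  | (m + 1) => coef m * (3 / 2 - m)

theorem iteratedDeriv_f₁ (m : ℕ) : ∀ t : ℝ, 0 < t →
    iteratedDeriv m f₁ t = coef m * t ^ (3 / 2 - m : ℝ) := by
  induction m with
  | zero => intro t ht; simp [coef, f₁]
  | succ m ih =>
    intro t ht
    rw [iteratedDeriv_succ]
    have h1 : iteratedDeriv m f₁ =ᶠ[𝓝 t] fun x => coef m * x ^ (3 / 2 - m : ℝ) := by
      filter_upwards [lt_mem_nhds ht] with x hx
      exact ih x hx
    rw [h1.deriv_eq]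
    have h2 : HasDerivAt (fun x : ℝ => coef m * x ^ (3 / 2 - m : ℝ))
        (coef m * ((3 / 2 - m : ℝ) * t ^ ((3 / 2 - m : ℝ) - 1))) t :=
      (Real.hasDerivAt_rpow_const (Or.inl ht.ne')).const_mul _
    rw [h2.deriv, coef]
    push_cast
    rw [show (3 / 2 - (m : ℝ)) - 1 = 3 / 2 - ((m : ℝ) + 1) by ring]
    ring

theorem iteratedDeriv_id_succ_succ (m : ℕ) : iteratedDeriv (m + 2) (fun t : ℝ => t) = fun _ => 0 := by
  have h1 : iteratedDeriv 1 (fun t : ℝ => t) = fun _ => 1 := by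
    rw [iteratedDeriv_one]; funext t; simp
  have h2 : iteratedDeriv 2 (fun t : ℝ => t) = fun _ => 0 := by
    rw [iteratedDeriv_succ, h1]; funext t; simp
  induction m with
  | zero => exact h2
  | succ m ih => rw [iteratedDeriv_succ, ih]; funext t; simp

theorem contDiffAt_f₁ {t : ℝ} (ht : 0 < t) (n : ℕ) : ContDiffAt ℝ n f₁ t := by
  unfold f₁
  exact Real.contDiffAt_rpow_const (Or.inl ht.ne')

theorem iteratedDeriv_f₂ (α : ℝ) (m : ℕ) {t : ℝ} (ht : 0 < t) :
    iteratedDeriv m (f₂ α) t = α * iteratedDeriv m f₁ t + iteratedDeriv m (fun t : ℝ => t) t := by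
  have h0 : f₂ α = (fun t => α * f₁ t) + (fun t : ℝ => t) := by
    funext t; simp [f₂, f₁]
  rw [h0, iteratedDeriv_add]
  · rw [iteratedDeriv_const_mul_field]
  · exact contDiffAt_const.mul (contDiffAt_f₁ ht m)
  · exact contDiffAt_id

/-! ### The hypothesis holds for `f₁, f₂` -/

/-- the coefficient of `t^{3/2}` in the `m`-th derivative of `t^{3/2}` -/
noncomputable def ca (m : ℕ) : ℝ := if m = 0 then 1 else 0

/-- the coefficient of `t^{1/2}` in the `m`-th derivative of `t^{3/2}`, divided by `3/2` -/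
noncomputable def cb (m : ℕ) : ℝ := if m = 1 then 1 else 0

theorem tendsto_rest (m : ℕ) :
    Tendsto (fun t : ℝ => iteratedDeriv m f₁ t
      - (ca m * t ^ (3 / 2 : ℝ) + cb m * (3 / 2) * t ^ (1 / 2 : ℝ))) atTop (𝓝 0) := by
  match m with
  | 0 =>
    refine tendsto_const_nhds.congr' ?_
    filter_upwards [eventually_gt_atTop 0] with t ht
    rw [iteratedDeriv_f₁ 0 t ht]
    simp [coef, ca, cb]
  | 1 =>
    refine tendsto_const_nhds.congr' ?_
    filter_upwards [eventually_gt_atTop 0] with t ht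
    rw [iteratedDeriv_f₁ 1 t ht]
    simp only [coef, ca, cb]
    norm_num
  | (m + 2) =>
    have h : Tendsto (fun t : ℝ => coef (m + 2) * t ^ (-((m : ℝ) + 1 / 2))) atTop (𝓝 (coef (m + 2) * 0)) :=
      (tendsto_rpow_neg_atTop (by positivity)).const_mul _
    rw [mul_zero] at h
    refine h.congr' ?_
    filter_upwards [eventually_gt_atTop 0] with t ht
    rw [iteratedDeriv_f₁ (m + 2) t ht]
    simp only [ca, cb]
    rw [if_neg (by omega), if_neg (by omega)]
    push_cast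
    rw [show (3 / 2 - ((m : ℝ) + 2)) = -((m : ℝ) + 1 / 2) by ring]
    ring

theorem iteratedDeriv_lin (m : ℕ) (t : ℝ) :
    iteratedDeriv m (fun t : ℝ => t) t = ca m * t + cb m := by
  match m with
  | 0 => simp [ca, cb]
  | 1 => rw [iteratedDeriv_one]; simp [ca, cb]
  | (m + 2) => rw [iteratedDeriv_id_succ_succ]; simp [ca, cb]

theorem tendsto_abs_of_lead {G : ℝ → ℝ} {A r : ℝ} (hA : A ≠ 0) (hr : 0 < r)
    (h : Tendsto (fun t : ℝ => G t * t ^ (-r)) atTop (𝓝 A)) :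
    Tendsto (fun t : ℝ => |G t|) atTop atTop := by
  have h1 : Tendsto (fun t : ℝ => |G t * t ^ (-r)| * t ^ r) atTop atTop :=
    Tendsto.pos_mul_atTop (abs_pos.mpr hA) h.abs (tendsto_rpow_atTop hr)
  refine h1.congr' ?_
  filter_upwards [eventually_gt_atTop 0] with t ht
  rw [abs_mul, abs_of_pos (Real.rpow_pos_of_pos ht _), mul_assoc, ← Real.rpow_add ht]
  simp

theorem growth {A B C D : ℝ} {e : ℝ → ℝ} (he : Tendsto e atTop (𝓝 0))
    (hB : A = 0 → B = 0) (hD : C = 0 → D = 0) :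
    Tendsto (fun t : ℝ => |A * t ^ (3 / 2 : ℝ) + B * t + C * t ^ (1 / 2 : ℝ) + D + e t|) atTop (𝓝 0) ∨
    Tendsto (fun t : ℝ => |A * t ^ (3 / 2 : ℝ) + B * t + C * t ^ (1 / 2 : ℝ) + D + e t|) atTop atTop := by
  by_cases hA : A = 0
  · have hB0 := hB hA
    subst hA hB0
    by_cases hC : C = 0
    · have hD0 := hD hC
      subst hC hD0
      left
      have := he.abs
      rw [abs_zero] at this
      refine this.congr fun t => ?_
      simp
    · right
      refine tendsto_abs_of_lead (r := 1 / 2) hC (by norm_num) ?_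
      have h1 : Tendsto (fun t : ℝ => C + D * t ^ (-(1 / 2 : ℝ)) + e t * t ^ (-(1 / 2 : ℝ))) atTop
          (𝓝 (C + D * 0 + 0 * 0)) := by
        refine Tendsto.add (Tendsto.add tendsto_const_nhds ?_) ?_
        · exact (tendsto_rpow_neg_atTop (by norm_num)).const_mul _
        · exact he.mul (tendsto_rpow_neg_atTop (by norm_num))
      rw [mul_zero, mul_zero, add_zero, add_zero] at h1
      refine h1.congr' ?_
      filter_upwards [eventually_gt_atTop 0] with t ht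
      have h2 : t ^ (1 / 2 : ℝ) * t ^ (-(1 / 2 : ℝ)) = 1 := by
        rw [← Real.rpow_add ht]; simp
      linear_combination (-C) * h2
  · right
    refine tendsto_abs_of_lead (r := 3 / 2) hA (by norm_num) ?_
    have h1 : Tendsto (fun t : ℝ => A + B * t ^ (-(1 / 2 : ℝ)) + C * t ^ (-(1 : ℝ))
        + D * t ^ (-(3 / 2 : ℝ)) + e t * t ^ (-(3 / 2 : ℝ))) atTop
        (𝓝 (A + B * 0 + C * 0 + D * 0 + 0 * 0)) := by
      refine Tendsto.add (Tendsto.add (Tendsto.add (Tendsto.add tendsto_const_nhds ?_) ?_) ?_) ?_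
      · exact (tendsto_rpow_neg_atTop (by norm_num)).const_mul _
      · exact (tendsto_rpow_neg_atTop (by norm_num)).const_mul _
      · exact (tendsto_rpow_neg_atTop (by norm_num)).const_mul _
      · exact he.mul (tendsto_rpow_neg_atTop (by norm_num))
    simp only [mul_zero, add_zero] at h1
    refine h1.congr' ?_
    filter_upwards [eventually_gt_atTop 0] with t ht
    have h2 : t ^ (3 / 2 : ℝ) * t ^ (-(3 / 2 : ℝ)) = 1 := by
      rw [← Real.rpow_add ht]; simp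
    have h3 : t * t ^ (-(3 / 2 : ℝ)) = t ^ (-(1 / 2 : ℝ)) := by
      nth_rewrite 1 [← Real.rpow_one t]
      rw [← Real.rpow_add ht]; norm_num
    have h4 : t ^ (1 / 2 : ℝ) * t ^ (-(3 / 2 : ℝ)) = t ^ (-(1 : ℝ)) := by
      rw [← Real.rpow_add ht]; norm_num
    linear_combination (-A) * h2 - B * h3 - C * h4

theorem irrational_comb {α : ℝ} (hα : Irrational α) {a b : ℤ} (h : (a : ℝ) + b * α = 0) :
    (a : ℝ) = 0 ∧ (b : ℝ) = 0 := by
  by_cases hb : b = 0
  · subst hb; simp at h; simp [h]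
  · exfalso
    have hb' : (b : ℝ) ≠ 0 := by exact_mod_cast hb
    apply hα
    refine ⟨-(a : ℚ) / b, ?_⟩
    push_cast
    field_simp
    linarith

theorem spanCondition {α : ℝ} (hα : Irrational α) : SpanCondition ![f₁, f₂ α] := by
  intro c m
  set c₁ := c 0 with hc₁
  set c₂ := c 1 with hc₂
  set m₁ := m 0 with hm₁
  set m₂ := m 1 with hm₂
  have key := growth (A := c₁ * ca m₁ + c₂ * ca m₂ * α) (B := c₂ * ca m₂)
    (C := (3 / 2) * (c₁ * cb m₁ + c₂ * cb m₂ * α)) (D := c₂ * cb m₂)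
    (e := fun t => (c₁ : ℝ) * (iteratedDeriv m₁ f₁ t
      - (ca m₁ * t ^ (3 / 2 : ℝ) + cb m₁ * (3 / 2) * t ^ (1 / 2 : ℝ))) + (c₂ * α : ℝ) *
      (iteratedDeriv m₂ f₁ t
      - (ca m₂ * t ^ (3 / 2 : ℝ) + cb m₂ * (3 / 2) * t ^ (1 / 2 : ℝ)))) ?_ ?_ ?_
  · have hcongr : (fun t : ℝ => |∑ i, (c i : ℝ) * iteratedDeriv (m i) ((![f₁, f₂ α] : Fin 2 → ℝ → ℝ) i) t|)
        =ᶠ[atTop] fun t : ℝ => |(c₁ * ca m₁ + c₂ * ca m₂ * α) * t ^ (3 / 2 : ℝ) + (c₂ * ca m₂) * t
          + ((3 / 2) * (c₁ * cb m₁ + c₂ * cb m₂ * α)) * t ^ (1 / 2 : ℝ) + (c₂ * cb m₂)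
          + ((c₁ : ℝ) * (iteratedDeriv m₁ f₁ t
      - (ca m₁ * t ^ (3 / 2 : ℝ) + cb m₁ * (3 / 2) * t ^ (1 / 2 : ℝ))) + (c₂ * α : ℝ) *
      (iteratedDeriv m₂ f₁ t
      - (ca m₂ * t ^ (3 / 2 : ℝ) + cb m₂ * (3 / 2) * t ^ (1 / 2 : ℝ))))| := by
      filter_upwards [eventually_gt_atTop 0] with t ht
      congr 1
      simp only [Fin.sum_univ_two, Matrix.cons_val_zero, Matrix.cons_val_one]
      rw [iteratedDeriv_f₂ α _ ht, iteratedDeriv_lin]
      ring
    rcases key with h | h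
    · left; exact h.congr' hcongr.symm
    · right; exact h.congr' hcongr.symm
  · have h1 := (tendsto_rest m₁).const_mul (c₁ : ℝ)
    have h2 := (tendsto_rest m₂).const_mul (c₂ * α : ℝ)
    have h3 := h1.add h2
    simpa using h3
  · intro hA
    have h1 : ∃ a b : ℤ, (a : ℝ) = c₁ * ca m₁ ∧ (b : ℝ) = c₂ * ca m₂ := by
      refine ⟨if m₁ = 0 then c₁ else 0, if m₂ = 0 then c₂ else 0, ?_, ?_⟩ <;>
        simp only [ca] <;> split_ifs <;> simp
    obtain ⟨a, b, ha, hb⟩ := h1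
    rw [← ha, ← hb] at hA
    rw [← hb]
    exact (irrational_comb hα hA).2
  · intro hC
    have h1 : ∃ a b : ℤ, (a : ℝ) = c₁ * cb m₁ ∧ (b : ℝ) = c₂ * cb m₂ := by
      refine ⟨if m₁ = 1 then c₁ else 0, if m₂ = 1 then c₂ else 0, ?_, ?_⟩ <;>
        simp only [cb] <;> split_ifs <;> simp
    obtain ⟨a, b, ha, hb⟩ := h1
    rw [← ha, ← hb] at hC
    rw [← hb]
    have hC' : (a : ℝ) + b * α = 0 := by linarith
    exact (irrational_comb hα hC').2

/-! ### The set `E` -/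

/-- the multiples `m ≥ 1` of `3` for which `m/α` is within `η` of an integer -/
def setE (α η : ℝ) : Set ℕ := {m | 1 ≤ m ∧ 3 ∣ m ∧ ∃ k : ℤ, |(m : ℝ) / α - k| < η}

/-- stepping by a small nonzero amount one comes close to an integer after boundedly many steps -/
theorem step_pos {ρ η : ℝ} (hρ : 0 < ρ) (hη : ρ < η) (J : ℕ) (hJ : 1 ≤ J * ρ) (x : ℝ) :
    ∃ j : ℕ, j ≤ J ∧ ∃ k : ℤ, |x + j * ρ - k| < η := by
  have hx : x < ⌊x⌋ + 1 := Int.lt_floor_add_one x
  have hx' : (⌊x⌋ : ℝ) ≤ x := Int.floor_le x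
  set y : ℝ := (⌊x⌋ + 1 - x) / ρ with hy
  have hy0 : 0 ≤ y := div_nonneg (by linarith) hρ.le
  have hyρ : y * ρ = ⌊x⌋ + 1 - x := by rw [hy]; field_simp
  refine ⟨⌊y⌋₊, ?_, ⌊x⌋ + 1, ?_⟩
  · have h1 : (⌊y⌋₊ : ℝ) ≤ J := by
      refine (Nat.floor_le hy0).trans ?_
      rw [hy, div_le_iff₀ hρ]
      linarith
    exact_mod_cast h1
  · have h1 := Nat.floor_le hy0
    have h2 := Nat.lt_floor_add_one y
    have h3 : (⌊y⌋₊ : ℝ) * ρ ≤ y * ρ := mul_le_mul_of_nonneg_right h1 hρ.le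
    have h4 : y * ρ < (⌊y⌋₊ + 1 : ℝ) * ρ := mul_lt_mul_of_pos_right h2 hρ
    push_cast
    rw [abs_lt]
    constructor <;> nlinarith

theorem step_ne {ρ η : ℝ} (hρ : ρ ≠ 0) (hη : |ρ| < η) :
    ∃ J : ℕ, ∀ x : ℝ, ∃ j : ℕ, j ≤ J ∧ ∃ k : ℤ, |x + j * ρ - k| < η := by
  obtain ⟨J, hJ⟩ := exists_nat_ge (1 / |ρ|)
  have habs : 0 < |ρ| := abs_pos.mpr hρ
  have hJ' : 1 ≤ J * |ρ| := by
    rw [div_le_iff₀ habs] at hJ
    exact hJ
  refine ⟨J, fun x => ?_⟩
  rcases lt_or_gt_of_ne hρ with h | h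
  · rw [abs_of_neg h] at hJ' hη
    obtain ⟨j, hj, k, hk⟩ := step_pos (ρ := -ρ) (by linarith) hη J hJ' (-x)
    refine ⟨j, hj, -k, ?_⟩
    rw [abs_lt] at hk ⊢
    push_cast
    constructor <;> linarith [hk.1, hk.2]
  · rw [abs_of_pos h] at hJ' hη
    exact step_pos h hη J hJ' x

/-- `setE` has bounded gaps -/
theorem setE_syndetic {α η : ℝ} (hα : Irrational α) (hη : 0 < η) :
    ∃ R : ℕ, 0 < R ∧ ∀ x : ℕ, ∃ m ∈ setE α η, x < m ∧ m ≤ x + R := by
  have hβ : Irrational (3 / α) := by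
    have := hα.ratCast_div (q := 3) (by norm_num)
    simpa using this
  obtain ⟨n, hn⟩ := exists_nat_gt (1 / η)
  have hn0 : (0 : ℝ) < n := lt_trans (by positivity) hn
  have hn0' : 0 < n := by exact_mod_cast hn0
  obtain ⟨p, q, hq0, hqn, hpq⟩ := Real.exists_int_int_abs_mul_sub_le (3 / α) hn0'
  set ρ : ℝ := q * (3 / α) - p with hρ
  have hρ0 : ρ ≠ 0 := by
    intro h
    have h1 : Irrational (q * (3 / α) - p) := by
      have := (hβ.intCast_mul (m := q) hq0.ne').sub_intCast p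
      exact this
    exact h1.ne_zero (by rw [← hρ]; exact h)
  have hρη : |ρ| < η := by
    refine lt_of_le_of_lt hpq ?_
    rw [div_lt_iff₀ (by linarith)]
    rw [div_lt_iff₀ hη] at hn
    nlinarith
  obtain ⟨J, hJ⟩ := step_ne hρ0 hρη
  obtain ⟨Q, rfl⟩ : ∃ Q : ℕ, (Q : ℤ) = q := ⟨q.toNat, Int.toNat_of_nonneg hq0.le⟩
  refine ⟨3 + 3 * (J * Q), by positivity, fun x => ?_⟩
  obtain ⟨j, hjJ, k, hk⟩ := hJ ((3 * (x / 3 + 1) : ℕ) / α)
  refine ⟨3 * (x / 3 + 1) + 3 * (j * Q), ⟨by omega, ⟨x / 3 + 1 + j * Q, by ring⟩, k + j * p, ?_⟩, ?_, ?_⟩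
  · have hα0 : α ≠ 0 := hα.ne_zero
    have : (((3 * (x / 3 + 1) + 3 * (j * Q) : ℕ) : ℝ) / α - ((k + j * p : ℤ) : ℝ))
        = (3 * (x / 3 + 1) : ℕ) / α + j * ρ - k := by
      rw [hρ]; push_cast; field_simp; ring
    rw [this]
    exact hk
  · omega
  · have h1 : j * Q ≤ J * Q := Nat.mul_le_mul_right Q hjJ
    omega

theorem ncard_lower {E : Set ℕ} {R : ℕ}
    (h : ∀ x : ℕ, ∃ m ∈ E, x < m ∧ m ≤ x + R) (M : ℕ) :
    M ≤ (E ∩ Set.Icc 1 (R * M)).ncard := by
  choose g hgE hg1 hg2 using h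
  have hinj : Set.InjOn (fun i : ℕ => g (R * i)) (Finset.range M : Set ℕ) := by
    intro i _ j _ hij
    simp only at hij
    by_contra hne
    rcases Nat.lt_or_gt_of_ne hne with hlt | hlt
    · have h1 := hg2 (R * i)
      have h2 := hg1 (R * j)
      have h3 : R * (i + 1) ≤ R * j := Nat.mul_le_mul_left R hlt
      rw [mul_add, mul_one] at h3
      omega
    · have h1 := hg2 (R * j)
      have h2 := hg1 (R * i)
      have h3 : R * (j + 1) ≤ R * i := Nat.mul_le_mul_left R hlt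
      rw [mul_add, mul_one] at h3
      omega
  have h1 : ((Finset.range M).image (fun i : ℕ => g (R * i)) : Set ℕ) ⊆ E ∩ Set.Icc 1 (R * M) := by
    intro y hy
    simp only [Finset.coe_image, Set.mem_image, Finset.mem_coe, Finset.mem_range] at hy
    obtain ⟨i, hi, rfl⟩ := hy
    refine ⟨hgE _, ?_, ?_⟩
    · have := hg1 (R * i); omega
    · have h2 := hg2 (R * i)
      have h3 : R * (i + 1) ≤ R * M := Nat.mul_le_mul_left R hi
      rw [mul_add, mul_one] at h3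
      omega
  have hfin : (E ∩ Set.Icc 1 (R * M)).Finite := (Set.finite_Icc 1 (R * M)).inter_of_right E
  have h2 := Set.ncard_le_ncard h1 hfin
  rw [Set.ncard_coe_finset, Finset.card_image_of_injOn hinj, Finset.card_range] at h2
  exact h2

theorem upperDensity_pos {E : Set ℕ} {R : ℕ} (hR : 0 < R)
    (h : ∀ x : ℕ, ∃ m ∈ E, x < m ∧ m ≤ x + R) : 0 < upperDensity E := by
  have hRpos : (0 : ℝ) < R := by exact_mod_cast hR
  have hb : IsBoundedUnder (· ≤ ·) atTop
      (fun N : ℕ => ((E ∩ Set.Icc 1 N).ncard : ℝ) / (N : ℝ)) := by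
    refine ⟨1, eventually_map.mpr (Eventually.of_forall fun N => ?_)⟩
    refine div_le_one_of_le₀ ?_ (Nat.cast_nonneg N)
    have h1 := Set.ncard_le_ncard (Set.inter_subset_right : E ∩ Set.Icc 1 N ⊆ Set.Icc 1 N)
      (Set.finite_Icc 1 N)
    rw [← Nat.card_coe_set_eq (Set.Icc 1 N)] at h1
    simp at h1
    exact_mod_cast h1
  refine lt_of_lt_of_le (b := 1 / (R : ℝ)) (by positivity) ?_
  refine le_limsup_of_frequently_le ?_ hb
  rw [frequently_atTop]
  intro N₀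
  refine ⟨R * (N₀ + 1), ?_, ?_⟩
  · have : 1 * (N₀ + 1) ≤ R * (N₀ + 1) := Nat.mul_le_mul_right _ hR
    omega
  · have h1 := ncard_lower h (N₀ + 1)
    have h2 : ((N₀ + 1 : ℕ) : ℝ) ≤ ((E ∩ Set.Icc 1 (R * (N₀ + 1))).ncard : ℝ) := by exact_mod_cast h1
    have h3 : (0 : ℝ) < ((R * (N₀ + 1) : ℕ) : ℝ) := by
      push_cast
      positivity
    rw [div_le_div_iff₀ hRpos h3]
    push_cast at h2 ⊢
    nlinarith

/-! ### The return times do not contain long intervals -/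

theorem second_diff {t : ℝ} (ht : 0 < t) :
    |f₁ (t + 2) - 2 * f₁ (t + 1) + f₁ t| ≤ 1 / √t := by
  unfold f₁
  rw [rpow_three_half ht.le, rpow_three_half (by linarith : (0 : ℝ) ≤ t + 1),
    rpow_three_half (by linarith : (0 : ℝ) ≤ t + 2)]
  set a := √t with ha
  set b := √(t + 1) with hb
  set c := √(t + 2) with hc
  have ha0 : 0 < a := Real.sqrt_pos.mpr ht
  have hb0 : 0 < b := Real.sqrt_pos.mpr (by linarith)
  have hc0 : 0 < c := Real.sqrt_pos.mpr (by linarith)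
  have ha2 : a ^ 2 = t := Real.sq_sqrt ht.le
  have hb2 : b ^ 2 = t + 1 := Real.sq_sqrt (by linarith)
  have hc2 : c ^ 2 = t + 2 := Real.sq_sqrt (by linarith)
  have hab : a < b := Real.sqrt_lt_sqrt ht.le (by linarith)
  have hbc : b < c := Real.sqrt_lt_sqrt (by linarith) (by linarith)
  have hS : (t + 2) * c - 2 * ((t + 1) * b) + t * a = b ^ 2 * (c + a - 2 * b) + (c - a) := by
    rw [hb2]; ring
  rw [hS]
  have h1 : (c - b) * (c + b) = 1 := by nlinarith
  have h2 : (b - a) * (a + b) = 1 := by nlinarith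
  have h3 : (b ^ 2 * (c + a - 2 * b) + (c - a)) * ((c + b) * (a + b))
      = (c - a) * (c * a + c * b + a * b) := by
    have : (c + a - 2 * b) * ((c + b) * (a + b)) = a - c := by
      calc (c + a - 2 * b) * ((c + b) * (a + b))
          = ((c - b) * (c + b)) * (a + b) - ((b - a) * (a + b)) * (c + b) := by ring
        _ = a - c := by rw [h1, h2]; ring
    calc (b ^ 2 * (c + a - 2 * b) + (c - a)) * ((c + b) * (a + b))
        = b ^ 2 * ((c + a - 2 * b) * ((c + b) * (a + b))) + (c - a) * ((c + b) * (a + b)) := by ring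
      _ = _ := by rw [this]; ring
  have h4 : 0 ≤ b ^ 2 * (c + a - 2 * b) + (c - a) := by
    have hpos : 0 < (c + b) * (a + b) := by positivity
    have hnn : 0 ≤ (b ^ 2 * (c + a - 2 * b) + (c - a)) * ((c + b) * (a + b)) := by
      rw [h3]
      have : 0 ≤ c - a := by linarith
      positivity
    exact nonneg_of_mul_nonneg_left hnn hpos
  have h5 : c + a - 2 * b ≤ 0 := by
    have : (c + a - 2 * b) * ((c + b) * (a + b)) = a - c := by
      calc (c + a - 2 * b) * ((c + b) * (a + b))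
          = ((c - b) * (c + b)) * (a + b) - ((b - a) * (a + b)) * (c + b) := by ring
        _ = a - c := by rw [h1, h2]; ring
    by_contra hcon
    push Not at hcon
    have hpos : 0 < (c + b) * (a + b) := by positivity
    have := mul_pos hcon hpos
    linarith
  have h6 : c - a ≤ 1 / a := by
    rw [le_div_iff₀ ha0]
    nlinarith
  rw [abs_of_nonneg h4]
  have h7 : b ^ 2 * (c + a - 2 * b) ≤ 0 := mul_nonpos_of_nonneg_of_nonpos (by positivity) h5
  linarith

/-- a sequence of multiples of `3` which is the integer part of a sequence with small second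
differences is an arithmetic progression -/
theorem arith_prog {F : ℕ → ℝ} {L : ℕ} (h3 : ∀ j ≤ L, (3 : ℤ) ∣ ⌊F j⌋)
    (hF : ∀ j, j + 2 ≤ L → |F (j + 2) - 2 * F (j + 1) + F j| < 1) :
    ∀ j ≤ L, ⌊F j⌋ = ⌊F 0⌋ + j * (⌊F 1⌋ - ⌊F 0⌋) := by
  intro j
  induction j using Nat.strong_induction_on with
  | _ j ih =>
    intro hj
    match j with
    | 0 => simp
    | 1 => simp
    | (j + 2) =>
      have e0 := ih j (by omega) (by omega)
      have e1 := ih (j + 1) (by omega) (by omega)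
      have d0 := h3 j (by omega)
      have d1 := h3 (j + 1) (by omega)
      have d2 := h3 (j + 2) hj
      have hs := hF j hj
      rw [abs_lt] at hs
      have a0 := Int.floor_le (F j)
      have b0 := Int.lt_floor_add_one (F j)
      have a1 := Int.floor_le (F (j + 1))
      have b1 := Int.lt_floor_add_one (F (j + 1))
      have a2 := Int.floor_le (F (j + 2))
      have b2 := Int.lt_floor_add_one (F (j + 2))
      have u1 : ((⌊F (j + 2)⌋ - 2 * ⌊F (j + 1)⌋ + ⌊F j⌋ : ℤ) : ℝ) < 3 := by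
        push_cast; linarith [hs.1, hs.2]
      have u2 : (-3 : ℝ) < ((⌊F (j + 2)⌋ - 2 * ⌊F (j + 1)⌋ + ⌊F j⌋ : ℤ) : ℝ) := by
        push_cast; linarith [hs.1, hs.2]
      have u1' : ⌊F (j + 2)⌋ - 2 * ⌊F (j + 1)⌋ + ⌊F j⌋ < 3 := by exact_mod_cast u1
      have u2' : -3 < ⌊F (j + 2)⌋ - 2 * ⌊F (j + 1)⌋ + ⌊F j⌋ := by exact_mod_cast u2
      have u3 : ⌊F (j + 2)⌋ = 2 * ⌊F (j + 1)⌋ - ⌊F j⌋ := by omega
      rw [u3, e1, e0]
      push_cast
      ring

/-- a difference of two elements of `setE` is a multiple of `3` and close to `0` modulo `α` -/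
theorem diff_setE {α η : ℝ} {x : ℤ} (h : ∃ a ∈ setE α η, ∃ b ∈ setE α η, (a : ℤ) = (b : ℤ) - x) :
    (3 : ℤ) ∣ x ∧ ∃ k : ℤ, |(x : ℝ) / α - k| < 2 * η := by
  obtain ⟨a, ⟨_, ha3, k, hk⟩, b, ⟨_, hb3, l, hl⟩, hab⟩ := h
  have hx : x = b - a := by omega
  refine ⟨by omega, l - k, ?_⟩
  rw [hx]
  push_cast
  have : ((b : ℝ) - a) / α - (l - k) = (b / α - l) - (a / α - k) := by ring
  rw [this]
  calc |((b : ℝ) / α - l) - (a / α - k)| ≤ |(b : ℝ) / α - l| + |(a : ℝ) / α - k| := abs_sub _ _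
    _ < 2 * η := by linarith

/-- the main point: `R_{f₁}(E) ∩ R_{f₂}(E)` is not thick -/
theorem not_thick {α : ℝ} (hα : Irrational α) {δ : ℝ} (hδ0 : 0 < δ)
    (hδ : ∀ k : ℤ, δ ≤ |1 / α - k|) :
    ¬ Thick (returnSet f₁ (setE α (δ / 8)) ∩ returnSet (f₂ α) (setE α (δ / 8))) := by
  intro hthick
  have hα0 : α ≠ 0 := hα.ne_zero
  have hαpos : 0 < |α| := abs_pos.mpr hα0
  obtain ⟨L, hL⟩ := exists_nat_gt (4 * (1 + 1 / |α|) / δ)
  have hLpos : (0 : ℝ) < L := lt_of_le_of_lt (by positivity) hL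
  have hL0 : 0 < L := by exact_mod_cast hLpos
  have hL' : (1 + 1 / |α|) / L < δ / 4 := by
    rw [div_lt_iff₀ hLpos]
    rw [div_lt_iff₀ hδ0] at hL
    linarith
  obtain ⟨N₀, hN₀⟩ := exists_nat_gt ((1 + |α|) ^ 2)
  obtain ⟨n₀, hn₀, hn⟩ := hthick (N₀ + L + 1)
  set n : ℕ := n₀ + N₀ with hndef
  have hmem : ∀ j ≤ L, n + j ∈ returnSet f₁ (setE α (δ / 8)) ∧
      n + j ∈ returnSet (f₂ α) (setE α (δ / 8)) := by
    intro j hj
    have := hn (N₀ + j) (by omega)
    rwa [← add_assoc] at this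
  have hnbig : (1 + |α|) ^ 2 < (n : ℝ) := by
    refine hN₀.trans_le ?_
    have : N₀ ≤ n := by omega
    exact_mod_cast this
  have hsq : 1 + |α| < √(n : ℝ) := by
    rw [← Real.sqrt_sq (by positivity : (0 : ℝ) ≤ 1 + |α|)]
    exact Real.sqrt_lt_sqrt (by positivity) hnbig
  have hsd : ∀ j : ℕ, |f₁ ((n : ℝ) + j + 2) - 2 * f₁ ((n : ℝ) + j + 1) + f₁ ((n : ℝ) + j)|
      < 1 / (1 + |α|) := by
    intro j
    have hpos : (0 : ℝ) < (n : ℝ) + j := by
      have : (0 : ℝ) < n := lt_trans (by positivity) hnbig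
      positivity
    refine (second_diff hpos).trans_lt ?_
    have h1 : √(n : ℝ) ≤ √((n : ℝ) + j) := Real.sqrt_le_sqrt (by simp)
    exact one_div_lt_one_div_of_lt (by positivity) (hsq.trans_le h1)
  set F : ℕ → ℝ := fun j => f₁ ((n : ℝ) + j) with hF
  set G : ℕ → ℝ := fun j => f₂ α ((n : ℝ) + j) with hG
  have hGF : ∀ j : ℕ, G j = α * F j + (n + j) := by intro j; simp [hG, hF, f₂, f₁]
  have hFm : ∀ j ≤ L, (3 : ℤ) ∣ ⌊F j⌋ ∧ ∃ k : ℤ, |(⌊F j⌋ : ℝ) / α - k| < 2 * (δ / 8) := by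
    intro j hj
    obtain ⟨_, h⟩ := (hmem j hj).1
    push_cast at h
    exact diff_setE h
  have hGm : ∀ j ≤ L, (3 : ℤ) ∣ ⌊G j⌋ ∧ ∃ k : ℤ, |(⌊G j⌋ : ℝ) / α - k| < 2 * (δ / 8) := by
    intro j hj
    obtain ⟨_, h⟩ := (hmem j hj).2
    push_cast at h
    exact diff_setE h
  have hF2 : ∀ j : ℕ, |F (j + 2) - 2 * F (j + 1) + F j| < 1 / (1 + |α|) := by
    intro j
    have := hsd j
    simp only [hF]
    push_cast
    rw [← add_assoc, ← add_assoc]
    exact this
  have hone : 1 / (1 + |α|) ≤ 1 := by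
    rw [div_le_one (by positivity)]; linarith
  have hG2 : ∀ j : ℕ, |G (j + 2) - 2 * G (j + 1) + G j| < 1 := by
    intro j
    have h1 : G (j + 2) - 2 * G (j + 1) + G j = α * (F (j + 2) - 2 * F (j + 1) + F j) := by
      rw [hGF, hGF, hGF]; push_cast; ring
    rw [h1, abs_mul]
    calc |α| * |F (j + 2) - 2 * F (j + 1) + F j| < |α| * (1 / (1 + |α|)) :=
          mul_lt_mul_of_pos_left (hF2 j) hαpos
      _ ≤ 1 := by rw [mul_one_div, div_le_one (by positivity)]; linarith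
  have apF := arith_prog (fun j hj => (hFm j hj).1) (fun j _ => (hF2 j).trans_le hone) L le_rfl
  have apG := arith_prog (fun j hj => (hGm j hj).1) (fun j _ => hG2 j) L le_rfl
  set D : ℤ := ⌊F 1⌋ - ⌊F 0⌋ with hD
  set D' : ℤ := ⌊G 1⌋ - ⌊G 0⌋ with hD'
  -- `D'/α` is close to an integer
  obtain ⟨k, hk⟩ : ∃ k : ℤ, |(D' : ℝ) / α - k| < δ / 2 := by
    obtain ⟨k1, hk1⟩ := (hGm 1 (by omega)).2
    obtain ⟨k0, hk0⟩ := (hGm 0 (by omega)).2
    refine ⟨k1 - k0, ?_⟩
    have : (D' : ℝ) / α - ((k1 - k0 : ℤ) : ℝ)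
        = ((⌊G 1⌋ : ℝ) / α - k1) - ((⌊G 0⌋ : ℝ) / α - k0) := by
      rw [hD']; push_cast; ring
    rw [this]
    calc |((⌊G 1⌋ : ℝ) / α - k1) - ((⌊G 0⌋ : ℝ) / α - k0)|
        ≤ |(⌊G 1⌋ : ℝ) / α - k1| + |(⌊G 0⌋ : ℝ) / α - k0| := abs_sub _ _
      _ < δ / 2 := by linarith
  -- the errors of telescoping
  have hFL : |F L - F 0 - L * D| < 1 := by
    have a0 := Int.floor_le (F 0)
    have b0 := Int.lt_floor_add_one (F 0)
    have a1 := Int.floor_le (F L)
    have b1 := Int.lt_floor_add_one (F L)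
    have e : (⌊F L⌋ : ℝ) = ⌊F 0⌋ + L * D := by rw [apF]; push_cast; ring
    rw [e] at a1 b1
    rw [abs_lt]; constructor <;> linarith
  have hGL : |G L - G 0 - L * D'| < 1 := by
    have a0 := Int.floor_le (G 0)
    have b0 := Int.lt_floor_add_one (G 0)
    have a1 := Int.floor_le (G L)
    have b1 := Int.lt_floor_add_one (G L)
    have e : (⌊G L⌋ : ℝ) = ⌊G 0⌋ + L * D' := by rw [apG]; push_cast; ring
    rw [e] at a1 b1
    rw [abs_lt]; constructor <;> linarith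
  have hrel : G L - G 0 = α * (F L - F 0) + L := by
    rw [hGF, hGF]; push_cast; ring
  -- `D'/α - D - 1/α` is small
  have hmain : |(D' : ℝ) / α - D - 1 / α| < δ / 4 := by
    have e : (D' : ℝ) / α - D - 1 / α
        = ((F L - F 0 - L * D) - (G L - G 0 - L * D') / α) / L := by
      rw [hrel]
      field_simp
      ring
    rw [e, abs_div, abs_of_pos hLpos]
    refine lt_of_le_of_lt ?_ hL'
    refine div_le_div_of_nonneg_right ?_ hLpos.le
    calc |(F L - F 0 - L * D) - (G L - G 0 - L * D') / α|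
        ≤ |F L - F 0 - L * D| + |(G L - G 0 - L * D') / α| := abs_sub _ _
      _ ≤ 1 + 1 / |α| := by
          rw [abs_div]
          exact add_le_add hFL.le (div_le_div_of_nonneg_right hGL.le hαpos.le)
  have hcontra := hδ (k - D)
  have : |1 / α - ((k - D : ℤ) : ℝ)| < δ := by
    have e : 1 / α - ((k - D : ℤ) : ℝ) = ((D' : ℝ) / α - k) - ((D' : ℝ) / α - D - 1 / α) := by
      push_cast; ring
    rw [e]
    calc |((D' : ℝ) / α - k) - ((D' : ℝ) / α - D - 1 / α)|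
        ≤ |(D' : ℝ) / α - k| + |(D' : ℝ) / α - D - 1 / α| := abs_sub _ _
      _ < δ := by linarith
  linarith

/-- For every irrational `α` the pair `f₁(t) = t^{3/2}`, `f₂(t) = α t^{3/2} + t` violates the
statement of the question. -/
theorem counterexample {α : ℝ} (hα : Irrational α) :
    ∃ E : Set ℕ, E ⊆ {n | 1 ≤ n} ∧ 0 < upperDensity E ∧
      ¬ Thick (returnSet f₁ E ∩ returnSet (f₂ α) E) := by
  have hirr : Irrational (1 / α) := by simpa using hα.inv
  set δ : ℝ := |1 / α - round (1 / α)| with hδdef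
  have hδ0 : 0 < δ := by
    rw [hδdef, abs_pos, sub_ne_zero]
    exact hirr.ne_int _
  have hδ : ∀ k : ℤ, δ ≤ |1 / α - k| := fun k => round_le (1 / α) k
  obtain ⟨R, hR, hsynd⟩ := setE_syndetic hα (η := δ / 8) (by positivity)
  exact ⟨setE α (δ / 8), fun n hn => hn.1, upperDensity_pos hR hsynd, not_thick hα hδ0 hδ⟩

end Pool.Agent.Lib.MP_121ecb_an
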